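import Pool.Agent.X280.HP.Law

/-!
# The generalized Nagao conjecture: the normal law of the averages for surfaces in `ℙ¹ × ℙ²`

Let `X` be a surface of bidegree `(e, d)` in `ℙ¹ × ℙ²` over `ℚ`, `e, d ≥ 3`, fibred over `C = ℙ¹` by plane
curves of degree `d` (of genus `(d - 1) (d - 2) / 2 ≥ 1`).  For a prime `p` the sum over the `p + 1` points
`t` of `ℙ¹(𝔽_p)` of the numbers `p + 1 - #X_t(𝔽_p)` is `(p + 1)² - #X(𝔽_p)`; if all the fibres modulo `p` have
exactly one component rational over `𝔽_p`, these numbers are the traces of Frobenius on `H¹` of the fibres,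
and `A(p) = ((p + 1)² - #X(𝔽_p)) / p` is the average trace `A_{X,1}(p)` of the conjecture.  For the generic
`X` all the fibres are geometrically irreducible, the Chow trace is zero and the rank of the Jacobian of the
generic fibre over `ℚ(t)` is zero, so the conjecture predicts that `-T⁻¹ ∑_{p ≤ T} A(p) log p` tends to zero.

We determine the exact size and the distribution of this average in the family of ALL surfaces of bidegree
`(e, d)` with integral coefficients of absolute value at most `H`: it has the normal law with mean value `0`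
and variance `∑_{p ≤ T} (log p)² / T²`, asymptotically `log T / T`, if `T` and `log H / log T` tend to infinity.
The same holds for the primes of arbitrary finite sets and arbitrary weights.

`Mon n d` is the set of the monomials of degree `d` in `n + 1` variables, `c (μ, ν)` is the coefficient of
`y^μ x^ν`, `bval c y x` the value of the form.  `surfacePoints` is the number of the pairs of nonzero vectors
modulo `p` at which the form vanishes, divided by `(p - 1)²`, i.e. the number of the points of `X` modulo `p`,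
`fibreAverage c p` is the number `A(p)`, for all primes `p` (also those of bad reduction), and
`nagaoAverage c T = -T⁻¹ ∑_{p ≤ T} A(p) log p`.
-/

set_option autoImplicit false

namespace Pool.Agent.Results.MP_72c3ce_nt.BidegreeSurfaces

open Pool.Agent.Y722.HS Pool.Agent.X280.HG Pool.Agent.X280.HP ProbabilityTheory

/-- Let `e, d ≥ 3`, `u` real and `ε > 0`.

(1) For `δ > 0` there is a `K` such that for all finite sets `P` of at least `K` primes `p ≤ y`, all weights
`w(p) ∈ [-1, 1]` with `∑ w(p)² ≥ δ |P|` and all `H ≥ y^K` the proportion, among the forms of bidegree `(e, d)` in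
`2 + 3` variables with integral coefficients of absolute value at most `H`, of those with
`∑_{p ∈ P} w(p) A(p) ≤ u √(∑ w(p)²)` differs by at most `ε` from the probability that a standard normal variable
is at most `u`.

(2) There is a `K` such that for all `T ≥ K` and `H ≥ T^K` the proportion of those with
`-T⁻¹ ∑_{p ≤ T} A(p) log p ≤ u √(∑_{p ≤ T} (log p)²) / T` differs by at most `ε` from this probability. -/
theorem result (e d : ℕ) (he : 3 ≤ e) (hd : 3 ≤ d) (u ε : ℝ) (hε : 0 < ε) :
    (∀ δ : ℝ, 0 < δ → ∃ K : ℕ, ∀ (P : Finset ℕ) (w : ℕ → ℝ) (y H : ℕ),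
      (∀ p ∈ P, p.Prime ∧ p ≤ y) → (∀ p ∈ P, |w p| ≤ 1) → δ * P.card ≤ ∑ p ∈ P, w p ^ 2 →
      K ≤ P.card → y ^ K ≤ H →
      |({c : Mon 1 e × Mon 2 d → ℤ | (∀ q, |c q| ≤ H) ∧
        ∑ p ∈ P, w p * fibreAverage c p ≤ u * √(∑ p ∈ P, w p ^ 2)}.ncard : ℝ) /
        (2 * H + 1 : ℝ) ^ Fintype.card (Mon 1 e × Mon 2 d) -
          (gaussianReal 0 1).real (Set.Iic u)| ≤ ε) ∧
    ∃ K : ℕ, ∀ T H : ℕ, K ≤ T → T ^ K ≤ H →
      |({c : Mon 1 e × Mon 2 d → ℤ | (∀ q, |c q| ≤ H) ∧ nagaoAverage c T ≤
        u * (√(∑ p ∈ primesUpTo T, Real.log p ^ 2) / T)}.ncard : ℝ) /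
        (2 * H + 1 : ℝ) ^ Fintype.card (Mon 1 e × Mon 2 d) -
          (gaussianReal 0 1).real (Set.Iic u)| ≤ ε :=
  ⟨fun δ hδ => law_nag e d he hd δ hδ u ε hε, law_average e d he hd u ε hε⟩

end Pool.Agent.Results.MP_72c3ce_nt.BidegreeSurfaces
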